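import Mathlib

/-! Definitions for the hand-in on Lipschitz quasiconformal maps and Assouad dimension. -/

set_option linter.unusedVariables false
set_option linter.unusedSectionVars false
set_option linter.style.haveILetI false

open Set Filter Topology MeasureTheory
open scoped ENNReal NNReal ContDiff

namespace Pool.Agent.H27.QCAssouad

/-- `ℝⁿ` with the Euclidean metric. -/
abbrev En (n : ℕ) : Type := EuclideanSpace ℝ (Fin n)

/-- `N_r(A)`: the least number of sets of diameter at most `r` needed to cover `A`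
(diameters in `[0,∞]`; the value is `⊤` if no finite cover exists). -/
noncomputable def coverNumber {n : ℕ} (A : Set (En n)) (r : ℝ) : ℕ∞ :=
  ⨅ (T : Finset (Set (En n)))
    (_ : (∀ s ∈ T, Metric.ediam s ≤ ENNReal.ofReal r) ∧ A ⊆ ⋃ s ∈ T, s), (T.card : ℕ∞)

/-- The Assouad dimension of `S ⊆ ℝⁿ`: the infimum (in `[0,∞]`) of all `α ≥ 0` for which there is
`C > 0` with `N_r(B(x,R) ∩ S) ≤ C (R/r)^α` for all `x ∈ S` and `0 < r < R`. -/
noncomputable def assouadDim {n : ℕ} (S : Set (En n)) : ℝ≥0∞ :=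
  ⨅ (α : ℝ≥0) (_ : ∃ C : ℝ, 0 < C ∧ ∀ x ∈ S, ∀ r R : ℝ, 0 < r → r < R →
    ((coverNumber (Metric.ball x R ∩ S) r : ℕ∞) : ℝ≥0∞)
      ≤ ENNReal.ofReal (C * (R / r) ^ (α : ℝ))), (α : ℝ≥0∞)

/-- `Df` is the weak (distributional) differential of `f`: for every smooth compactly supported
`φ : ℝⁿ → ℝ` and every direction `v`, `∫ (∂_v φ) f = - ∫ φ (Df v)`. -/
def IsWeakDeriv {n : ℕ} (f : En n → En n) (Df : En n → En n →L[ℝ] En n) : Prop :=
  ∀ φ : En n → ℝ, ContDiff ℝ ∞ φ → HasCompactSupport φ → ∀ v : En n,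
    ∫ x, (fderiv ℝ φ x v) • f x = - ∫ x, φ x • Df x v

/-- `f : ℝⁿ → ℝⁿ` is quasiconformal (analytic definition): `f` is a homeomorphism of `ℝⁿ` onto
itself, `f ∈ W^{1,n}_loc` (`f` and its weak differential `Df` are in `L^n` on compact sets) and
there is `K ≥ 1` with `|Df(x)|^n ≤ K det Df(x)` for almost every `x` (operator norm). -/
def IsQuasiconformal {n : ℕ} (f : En n → En n) : Prop :=
  IsHomeomorph f ∧ ∃ Df : En n → En n →L[ℝ] En n,
    (∀ K : Set (En n), IsCompact K →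
      MemLp f (n : ℝ≥0∞) (volume.restrict K) ∧ MemLp Df (n : ℝ≥0∞) (volume.restrict K)) ∧
    IsWeakDeriv f Df ∧
    ∃ K : ℝ, 1 ≤ K ∧ ∀ᵐ x, ‖Df x‖ ^ n ≤ K * (Df x).det

end Pool.Agent.H27.QCAssouad
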