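import Pool.Agent.H27.QCAssouadDefs

/-!
# Lipschitz quasiconformal maps of `ℝⁿ` can increase the Assouad dimension

The answer to Q1 is negative, in every dimension `n ≥ 2`: there are a Lipschitz quasiconformal
map `f` of `ℝⁿ` onto itself and a set `S` with `dim_A f(S) > dim_A S`.

Idea: being Lipschitz is only a restriction on how far the map expands; a large scale Cantor set
`S = { ∑_{j ∈ A} 16^(j+1) • e : A finite }` is mapped onto `{ ∑_{j ∈ A} 8^(j+1) • e : A finite }`
by a quasiconformal map which contracts the level `k` clusters (size `16^k`) to clusters of size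
`8^k`, is radial in the ring around each cluster, and is a similarity elsewhere.  The first set has
Assouad dimension at most `1/4`, its image has Assouad dimension at least `1/3`.
-/

set_option linter.unusedVariables false
set_option linter.unusedSectionVars false
set_option linter.style.haveILetI false

open Set Filter Topology MeasureTheory
open scoped ENNReal NNReal ContDiff

namespace Pool.Agent.H27.QCAssouad

section maps

variable {V : Type*} [NormedAddCommGroup V] [InnerProductSpace ℝ V]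

/-- radial map: identity on the unit ball, `y ↦ a y + (1 - a) y/|y|` outside -/
noncomputable def rad (a : ℝ) (y : V) : V := if ‖y‖ ≤ 1 then y else a • y + ((1 - a) / ‖y‖) • y

theorem rad_of_le {a : ℝ} {y : V} (h : ‖y‖ ≤ 1) : rad a y = y := if_pos h

theorem rad_of_ge {a : ℝ} {y : V} (h : 1 ≤ ‖y‖) : rad a y = a • y + ((1 - a) / ‖y‖) • y := by
  unfold rad
  split_ifs with h1
  · have : ‖y‖ = 1 := le_antisymm h1 h
    rw [this, div_one, ← add_smul]
    simp
  · rfl

theorem norm_rad_of_ge {a : ℝ} (ha : 0 < a) {y : V} (h : 1 ≤ ‖y‖) :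
    ‖rad a y‖ = a * ‖y‖ + (1 - a) := by
  rw [rad_of_ge h, ← add_smul, norm_smul]
  have hy : 0 < ‖y‖ := by linarith
  have h2 : 0 ≤ a + (1 - a) / ‖y‖ := by
    have : a + (1 - a) / ‖y‖ = (a * ‖y‖ + (1 - a)) / ‖y‖ := by field_simp
    rw [this]
    apply div_nonneg _ hy.le
    nlinarith
  rw [Real.norm_of_nonneg h2]
  field_simp

theorem one_le_norm_rad {a : ℝ} (ha : 0 < a) {y : V} (h : 1 ≤ ‖y‖) : 1 ≤ ‖rad a y‖ := by
  rw [norm_rad_of_ge ha h]
  nlinarith

theorem one_lt_norm_rad {a : ℝ} (ha : 0 < a) {y : V} (h : 1 < ‖y‖) : 1 < ‖rad a y‖ := by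
  rw [norm_rad_of_ge ha h.le]
  nlinarith

theorem rad_rad {a : ℝ} (ha : 0 < a) (y : V) : rad a⁻¹ (rad a y) = y := by
  rcases le_or_gt ‖y‖ 1 with h | h
  · rw [rad_of_le h, rad_of_le h]
  · have h1 := one_lt_norm_rad ha h
    have h2 := norm_rad_of_ge ha h.le
    have hy : ‖y‖ ≠ 0 := by linarith
    have hs : rad a y = ((a * ‖y‖ + (1 - a)) / ‖y‖) • y := by
      rw [rad_of_ge h.le, ← add_smul]
      congr 1
      field_simp
    rw [rad_of_ge h1.le, h2, ← add_smul, hs, smul_smul]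
    have hpos : 0 < a * ‖y‖ + (1 - a) := by nlinarith
    have : (a⁻¹ + (1 - a⁻¹) / (a * ‖y‖ + (1 - a))) * ((a * ‖y‖ + (1 - a)) / ‖y‖) = 1 := by
      field_simp
      ring
    rw [this, one_smul]

/-- The recursion: `e` a unit vector. -/
noncomputable def rec (L M a : ℝ) (e : V) : ℕ → V → V
  | 0 => rad a
  | k + 1 => fun y =>
      if ‖y - (1 / 2 : ℝ) • e‖ ≤ 1 / 4 then
        (1 / 2 : ℝ) • e + M⁻¹ • rec L M a e k (L • (y - (1 / 2 : ℝ) • e))
      else if ‖y + (1 / 2 : ℝ) • e‖ ≤ 1 / 4 then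
        -((1 / 2 : ℝ) • e) + M⁻¹ • rec L M a e k (L • (y + (1 / 2 : ℝ) • e))
      else rad a y

theorem norm_half {e : V} (he : ‖e‖ = 1) : ‖(1 / 2 : ℝ) • e‖ = 1 / 2 := by
  rw [norm_smul, he]; norm_num

/-- the two small balls are disjoint -/
theorem balls_disjoint {e : V} (he : ‖e‖ = 1) {y : V} (h : ‖y + (1 / 2 : ℝ) • e‖ ≤ 1 / 4) :
    1 / 4 < ‖y - (1 / 2 : ℝ) • e‖ := by
  have h1 : e = (y + (1 / 2 : ℝ) • e) - (y - (1 / 2 : ℝ) • e) := by
    rw [add_sub_sub_cancel, ← add_smul]; norm_num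
  have h2 : ‖e‖ ≤ ‖y + (1 / 2 : ℝ) • e‖ + ‖y - (1 / 2 : ℝ) • e‖ := by
    calc ‖e‖ = ‖(y + (1 / 2 : ℝ) • e) - (y - (1 / 2 : ℝ) • e)‖ := by rw [← h1]
      _ ≤ _ := norm_sub_le _ _
  rw [he] at h2
  linarith

theorem norm_le_of_mem {c y : V} (hc : ‖c‖ = 1 / 2) (h : ‖y - c‖ ≤ 1 / 4) : ‖y‖ ≤ 3 / 4 := by
  have : ‖y‖ ≤ ‖y - c‖ + ‖c‖ := by
    calc ‖y‖ = ‖(y - c) + c‖ := by rw [sub_add_cancel]
      _ ≤ _ := norm_add_le _ _
  linarith

variable {L M a : ℝ} {e : V}

/-- conditions on the parameters -/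
structure Par (L M a : ℝ) : Prop where
  hL : 4 < L
  hM : 4 < M
  ha : 0 < a
  hLM : a * (L / 4) + (1 - a) = M / 4

theorem Par.symm (h : Par L M a) : Par M L a⁻¹ where
  hL := h.hM
  hM := h.hL
  ha := inv_pos.2 h.ha
  hLM := by
    have := h.hLM
    have ha := h.ha
    rw [← this]
    field_simp
    ring

theorem par_ex : Par 16 8 (1 / 3) := ⟨by norm_num, by norm_num, by norm_num, by norm_num⟩

theorem rad_ball (h : Par L M a) {y : V} (hy : ‖y‖ ≤ L / 4) : ‖rad a y‖ ≤ M / 4 := by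
  have hM := h.hM
  rcases le_or_gt ‖y‖ 1 with h1 | h1
  · rw [rad_of_le h1]
    linarith
  · rw [norm_rad_of_ge h.ha h1.le, ← h.hLM]
    have := h.ha
    nlinarith

theorem rec_ball (h : Par L M a) (he : ‖e‖ = 1) (k : ℕ) {y : V} (hy : ‖y‖ ≤ L / 4) :
    ‖rec L M a e k y‖ ≤ M / 4 := by
  have hM := h.hM
  have hL := h.hL
  have hM0 : 0 < M := by linarith
  have hL0 : 0 < L := by linarith
  induction k generalizing y with
  | zero => exact rad_ball h hy
  | succ k ih =>
    unfold rec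
    split_ifs with h1 h2
    · have h3 : ‖L • (y - (1 / 2 : ℝ) • e)‖ ≤ L / 4 := by
        rw [norm_smul, Real.norm_of_nonneg hL0.le]
        nlinarith
      have h4 := ih h3
      calc _ ≤ ‖(1 / 2 : ℝ) • e‖ + ‖M⁻¹ • rec L M a e k (L • (y - (1 / 2 : ℝ) • e))‖ :=
            norm_add_le _ _
        _ ≤ 1 / 2 + M⁻¹ * (M / 4) := by
            rw [norm_half he, norm_smul, Real.norm_of_nonneg (by positivity)]
            gcongr
        _ ≤ M / 4 := by
            have : M⁻¹ * (M / 4) = 1 / 4 := by field_simp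
            rw [this]; linarith
    · have h3 : ‖L • (y + (1 / 2 : ℝ) • e)‖ ≤ L / 4 := by
        rw [norm_smul, Real.norm_of_nonneg hL0.le]
        nlinarith
      have h4 := ih h3
      calc _ ≤ ‖-((1 / 2 : ℝ) • e)‖ + ‖M⁻¹ • rec L M a e k (L • (y + (1 / 2 : ℝ) • e))‖ :=
            norm_add_le _ _
        _ ≤ 1 / 2 + M⁻¹ * (M / 4) := by
            rw [norm_neg, norm_half he, norm_smul, Real.norm_of_nonneg (by positivity)]
            gcongr
        _ ≤ M / 4 := by
            have : M⁻¹ * (M / 4) = 1 / 4 := by field_simp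
            rw [this]; linarith
    · exact rad_ball h hy

theorem rec_left_inv (h : Par L M a) (he : ‖e‖ = 1) (k : ℕ) (y : V) :
    rec M L a⁻¹ e k (rec L M a e k y) = y := by
  have hM := h.hM
  have hL := h.hL
  have hM0 : 0 < M := by linarith
  have hL0 : 0 < L := by linarith
  induction k generalizing y with
  | zero => exact rad_rad h.ha y
  | succ k ih =>
    by_cases h1 : ‖y - (1 / 2 : ℝ) • e‖ ≤ 1 / 4
    · have e1 : rec L M a e (k + 1) y
          = (1 / 2 : ℝ) • e + M⁻¹ • rec L M a e k (L • (y - (1 / 2 : ℝ) • e)) := if_pos h1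
      have h3 : ‖L • (y - (1 / 2 : ℝ) • e)‖ ≤ L / 4 := by
        rw [norm_smul, Real.norm_of_nonneg hL0.le]
        nlinarith
      have h4 := rec_ball h he k h3
      set z := rec L M a e k (L • (y - (1 / 2 : ℝ) • e)) with hz
      have h5 : ‖(1 / 2 : ℝ) • e + M⁻¹ • z - (1 / 2 : ℝ) • e‖ ≤ 1 / 4 := by
        rw [add_sub_cancel_left, norm_smul, Real.norm_of_nonneg (by positivity)]
        calc M⁻¹ * ‖z‖ ≤ M⁻¹ * (M / 4) := by gcongr
          _ = 1 / 4 := by field_simp
      rw [e1]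
      have e2 : rec M L a⁻¹ e (k + 1) ((1 / 2 : ℝ) • e + M⁻¹ • z)
          = (1 / 2 : ℝ) • e + L⁻¹ • rec M L a⁻¹ e k (M • ((1 / 2 : ℝ) • e + M⁻¹ • z
            - (1 / 2 : ℝ) • e)) := if_pos h5
      rw [e2, add_sub_cancel_left, smul_smul, mul_inv_cancel₀ hM0.ne', one_smul, hz, ih,
        smul_smul, inv_mul_cancel₀ hL0.ne', one_smul]
      abel
    by_cases h2 : ‖y + (1 / 2 : ℝ) • e‖ ≤ 1 / 4
    · have e1 : rec L M a e (k + 1) y
          = -((1 / 2 : ℝ) • e) + M⁻¹ • rec L M a e k (L • (y + (1 / 2 : ℝ) • e)) := by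
        show (if _ then _ else _) = _
        rw [if_neg h1, if_pos h2]
      have h3 : ‖L • (y + (1 / 2 : ℝ) • e)‖ ≤ L / 4 := by
        rw [norm_smul, Real.norm_of_nonneg hL0.le]
        nlinarith
      have h4 := rec_ball h he k h3
      set z := rec L M a e k (L • (y + (1 / 2 : ℝ) • e)) with hz
      have h5 : ‖-((1 / 2 : ℝ) • e) + M⁻¹ • z + (1 / 2 : ℝ) • e‖ ≤ 1 / 4 := by
        rw [neg_add_cancel_comm, norm_smul, Real.norm_of_nonneg (by positivity)]
        calc M⁻¹ * ‖z‖ ≤ M⁻¹ * (M / 4) := by gcongr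
          _ = 1 / 4 := by field_simp
      have h6 : ¬ ‖-((1 / 2 : ℝ) • e) + M⁻¹ • z - (1 / 2 : ℝ) • e‖ ≤ 1 / 4 :=
        not_le.2 (balls_disjoint he h5)
      rw [e1]
      have e2 : rec M L a⁻¹ e (k + 1) (-((1 / 2 : ℝ) • e) + M⁻¹ • z)
          = -((1 / 2 : ℝ) • e) + L⁻¹ • rec M L a⁻¹ e k (M • (-((1 / 2 : ℝ) • e) + M⁻¹ • z
            + (1 / 2 : ℝ) • e)) := by
        show (if _ then _ else _) = _
        rw [if_neg h6, if_pos h5]
      rw [e2, neg_add_cancel_comm, smul_smul, mul_inv_cancel₀ hM0.ne', one_smul, hz, ih,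
        smul_smul, inv_mul_cancel₀ hL0.ne', one_smul]
      abel
    · have e1 : rec L M a e (k + 1) y = rad a y := by
        show (if _ then _ else _) = _
        rw [if_neg h1, if_neg h2]
      have h7 : ¬ ‖rad a y - (1 / 2 : ℝ) • e‖ ≤ 1 / 4 ∧ ¬ ‖rad a y + (1 / 2 : ℝ) • e‖ ≤ 1 / 4 := by
        rcases le_or_gt ‖y‖ 1 with h8 | h8
        · rw [rad_of_le h8]
          exact ⟨h1, h2⟩
        · have h9 := one_lt_norm_rad h.ha h8
          constructor
          · intro h10
            have := norm_le_of_mem (norm_half he) h10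
            linarith
          · intro h10
            rw [← sub_neg_eq_add] at h10
            have := norm_le_of_mem (by rw [norm_neg]; exact norm_half he) h10
            linarith
      rw [e1]
      have e2 : rec M L a⁻¹ e (k + 1) (rad a y) = rad a⁻¹ (rad a y) := by
        show (if _ then _ else _) = _
        rw [if_neg h7.1, if_neg h7.2]
      rw [e2, rad_rad h.ha]

theorem rec_right_inv (h : Par L M a) (he : ‖e‖ = 1) (k : ℕ) (y : V) :
    rec L M a e k (rec M L a⁻¹ e k y) = y := by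
  have := rec_left_inv h.symm he k y
  rwa [inv_inv] at this


/-- crossing point of a segment with a sphere -/
theorem exists_cross {x y c : V} {r : ℝ} (hx : ‖x - c‖ ≤ r) (hy : r < ‖y - c‖) :
    ∃ z, ‖z - c‖ = r ∧ ‖x - z‖ + ‖z - y‖ = ‖x - y‖ := by
  have hcont : ContinuousOn (fun t : ℝ => ‖x + t • (y - x) - c‖) (Icc 0 1) := by fun_prop
  have h0 : ‖x + (0 : ℝ) • (y - x) - c‖ ≤ r := by simpa using hx
  have h1 : r ≤ ‖x + (1 : ℝ) • (y - x) - c‖ := by
    rw [one_smul, add_sub_cancel]; exact hy.le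
  obtain ⟨t, ht, htr⟩ := intermediate_value_Icc (zero_le_one (α := ℝ)) hcont ⟨h0, h1⟩
  refine ⟨x + t • (y - x), htr, ?_⟩
  have e1 : x - (x + t • (y - x)) = -(t • (y - x)) := by abel
  have e2 : x + t • (y - x) - y = (t - 1) • (y - x) := by
    rw [sub_smul, one_smul]; abel
  rw [e1, e2, norm_neg, norm_smul, norm_smul, Real.norm_of_nonneg ht.1,
    Real.norm_of_nonpos (by linarith [ht.2]), norm_sub_rev x y]
  ring

theorem glue_lip {f g : V → V} {Λ : ℝ} (hΛ : 0 ≤ Λ) (hg : ∀ x y, ‖g x - g y‖ ≤ Λ * ‖x - y‖)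
    (hf : ∀ x, f x = g x ∨ ∃ c r, ‖x - c‖ ≤ r ∧
      (∀ y z, ‖y - c‖ ≤ r → ‖z - c‖ ≤ r → ‖f y - f z‖ ≤ Λ * ‖y - z‖) ∧
      (∀ z, ‖z - c‖ = r → f z = g z)) :
    ∀ x y, ‖f x - f y‖ ≤ Λ * ‖x - y‖ := by
  -- one-sided version: either done or there is a point `z` between
  have step : ∀ x y, ‖f x - f y‖ ≤ Λ * ‖x - y‖ ∨
      ∃ z, f z = g z ∧ ‖f x - f z‖ ≤ Λ * ‖x - z‖ ∧ ‖x - z‖ + ‖z - y‖ = ‖x - y‖ := by
    intro x y
    rcases hf x with h | ⟨c, r, hx, h1, h2⟩
    · right
      exact ⟨x, h, by simp, by simp⟩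
    · rcases le_or_gt ‖y - c‖ r with h3 | h3
      · left
        exact h1 x y hx h3
      · right
        obtain ⟨z, hz, hz2⟩ := exists_cross hx h3
        exact ⟨z, h2 z hz, h1 x z hx hz.le, hz2⟩
  intro x y
  rcases step x y with h | ⟨z, hz, h1, h2⟩
  · exact h
  rcases step y z with h | ⟨w, hw, h3, h4⟩
  · have h5 : ‖f x - f y‖ ≤ ‖f x - f z‖ + ‖f z - f y‖ := norm_sub_le_norm_sub_add_norm_sub _ _ _
    rw [norm_sub_rev (f y) (f z), norm_sub_rev y z] at h
    nlinarith
  · have h5 : ‖f x - f y‖ ≤ ‖f x - f z‖ + ‖f z - f y‖ := norm_sub_le_norm_sub_add_norm_sub _ _ _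
    have h6 : ‖f z - f y‖ ≤ ‖f z - f w‖ + ‖f w - f y‖ := norm_sub_le_norm_sub_add_norm_sub _ _ _
    have h7 : ‖f z - f w‖ ≤ Λ * ‖z - w‖ := by rw [hz, hw]; exact hg z w
    rw [norm_sub_rev (f y) (f w), norm_sub_rev y w] at h3
    rw [norm_sub_rev y w, norm_sub_rev w z, norm_sub_rev y z] at h4
    nlinarith

/-- the radial projection to the unit ball -/
noncomputable def prj (y : V) : V := (max 1 ‖y‖)⁻¹ • y

theorem prj_lip (x y : V) : ‖prj x - prj y‖ ≤ 2 * ‖x - y‖ := by
  unfold prj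
  set mx := max 1 ‖x‖ with hmx
  set my := max 1 ‖y‖ with hmy
  have hx1 : 1 ≤ mx := le_max_left _ _
  have hy1 : 1 ≤ my := le_max_left _ _
  have hx0 : 0 < mx := by linarith
  have hy0 : 0 < my := by linarith
  have hyy : ‖y‖ ≤ my := le_max_right _ _
  have e : mx⁻¹ • x - my⁻¹ • y = mx⁻¹ • (x - y) + (mx⁻¹ - my⁻¹) • y := by
    rw [smul_sub, sub_smul]; abel
  rw [e]
  have h1 : ‖mx⁻¹ • (x - y)‖ ≤ ‖x - y‖ := by
    rw [norm_smul, Real.norm_of_nonneg (by positivity)]
    have : mx⁻¹ ≤ 1 := inv_le_one_of_one_le₀ hx1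
    have := norm_nonneg (x - y)
    nlinarith
  have hmm : |mx - my| ≤ ‖x - y‖ := by
    have h2 := abs_max_sub_max_le_abs ‖x‖ ‖y‖ 1
    rw [max_comm ‖x‖, max_comm ‖y‖] at h2
    exact h2.trans (abs_norm_sub_norm_le x y)
  have h2 : ‖(mx⁻¹ - my⁻¹) • y‖ ≤ ‖x - y‖ := by
    rw [norm_smul, Real.norm_eq_abs]
    have e2 : mx⁻¹ - my⁻¹ = -((mx - my) / (mx * my)) := by
      field_simp
      ring
    rw [e2, abs_neg, abs_div, abs_of_pos (mul_pos hx0 hy0), div_mul_eq_mul_div,
      div_le_iff₀ (mul_pos hx0 hy0)]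
    calc |mx - my| * ‖y‖ ≤ ‖x - y‖ * my := mul_le_mul hmm hyy (norm_nonneg _) (norm_nonneg _)
      _ = ‖x - y‖ * (1 * my) := by ring
      _ ≤ ‖x - y‖ * (mx * my) := by gcongr
  calc _ ≤ ‖mx⁻¹ • (x - y)‖ + ‖(mx⁻¹ - my⁻¹) • y‖ := norm_add_le _ _
    _ ≤ 2 * ‖x - y‖ := by linarith

theorem rad_eq_prj (a : ℝ) (y : V) : rad a y = a • y + (1 - a) • prj y := by
  rcases le_or_gt ‖y‖ 1 with h | h
  · rw [rad_of_le h]
    unfold prj
    rw [max_eq_left h, inv_one, one_smul, ← add_smul]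
    simp
  · rw [rad_of_ge h.le]
    unfold prj
    rw [max_eq_right h.le, smul_smul, div_eq_mul_inv]

theorem rad_lip {a : ℝ} (ha : 0 < a) (ha1 : a ≤ 1) (x y : V) :
    ‖rad a x - rad a y‖ ≤ 2 * ‖x - y‖ := by
  rw [rad_eq_prj, rad_eq_prj]
  have e : a • x + (1 - a) • prj x - (a • y + (1 - a) • prj y)
      = a • (x - y) + (1 - a) • (prj x - prj y) := by
    rw [smul_sub, smul_sub]; abel
  rw [e]
  calc _ ≤ ‖a • (x - y)‖ + ‖(1 - a) • (prj x - prj y)‖ := norm_add_le _ _
    _ = a * ‖x - y‖ + (1 - a) * ‖prj x - prj y‖ := by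
      rw [norm_smul, norm_smul, Real.norm_of_nonneg ha.le, Real.norm_of_nonneg (by linarith)]
    _ ≤ a * ‖x - y‖ + (1 - a) * (2 * ‖x - y‖) := by
      have := prj_lip x y
      have h1 : 0 ≤ 1 - a := by linarith
      gcongr
    _ ≤ 2 * ‖x - y‖ := by nlinarith [norm_nonneg (x - y)]

theorem rec_of_ge (he : ‖e‖ = 1) (k : ℕ) {y : V} (hy : 3 / 4 < ‖y‖) :
    rec L M a e k y = rad a y := by
  cases k with
  | zero => rfl
  | succ k =>
    have h1 : ¬ ‖y - (1 / 2 : ℝ) • e‖ ≤ 1 / 4 := by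
      intro h
      have := norm_le_of_mem (norm_half he) h
      linarith
    have h2 : ¬ ‖y + (1 / 2 : ℝ) • e‖ ≤ 1 / 4 := by
      intro h
      rw [← sub_neg_eq_add] at h
      have := norm_le_of_mem (by rw [norm_neg]; exact norm_half he) h
      linarith
    show (if _ then _ else _) = _
    rw [if_neg h1, if_neg h2]

/-- on the sphere of radius `L/4` the maps are the similarity of ratio `M/L` -/
theorem rec_sphere (h : Par L M a) (he : ‖e‖ = 1) (k : ℕ) {y : V} (hy : ‖y‖ = L / 4) :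
    rec L M a e k y = (M / L) • y := by
  have hL := h.hL
  rw [rec_of_ge he k (by rw [hy]; linarith), rad_of_ge (by rw [hy]; linarith), ← add_smul, hy]
  congr 1
  have := h.hLM
  field_simp
  linarith

theorem rec_lip (h : Par L M a) (ha1 : a ≤ 1) (hLM : M ≤ L) (he : ‖e‖ = 1) (k : ℕ) (x y : V) :
    ‖rec L M a e k x - rec L M a e k y‖ ≤ 2 * (L / M) ^ k * ‖x - y‖ := by
  have hM := h.hM
  have hL := h.hL
  have hM0 : 0 < M := by linarith
  have hL0 : 0 < L := by linarith
  have hq : 1 ≤ L / M := by rw [le_div_iff₀ hM0]; linarith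
  induction k generalizing x y with
  | zero => rw [pow_zero, mul_one]; exact rad_lip h.ha ha1 x y
  | succ k ih =>
    have hpow : 1 ≤ (L / M) ^ (k + 1) := one_le_pow₀ hq
    -- behaviour on a small ball
    have hball : ∀ c y z : V,
        ‖(c + M⁻¹ • rec L M a e k (L • (y - c))) - (c + M⁻¹ • rec L M a e k (L • (z - c)))‖
        ≤ 2 * (L / M) ^ (k + 1) * ‖y - z‖ := by
      intro c y z
      rw [add_sub_add_left_eq_sub, ← smul_sub, norm_smul, Real.norm_of_nonneg (by positivity)]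
      have h1 := ih (L • (y - c)) (L • (z - c))
      rw [← smul_sub, norm_smul, Real.norm_of_nonneg hL0.le, sub_sub_sub_cancel_right] at h1
      calc _ ≤ M⁻¹ * (2 * (L / M) ^ k * (L * ‖y - z‖)) := by gcongr
        _ = 2 * (L / M) ^ (k + 1) * ‖y - z‖ := by rw [pow_succ]; field_simp
    have hsph : ∀ c z : V, ‖z - c‖ = 1 / 4 → ‖c‖ = 1 / 2 →
        c + M⁻¹ • rec L M a e k (L • (z - c)) = rad a z := by
      intro c z hz hc
      have h1 : ‖L • (z - c)‖ = L / 4 := by
        rw [norm_smul, Real.norm_of_nonneg hL0.le, hz]; ring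
      rw [rec_sphere h he k h1, rad_of_le (by have := norm_le_of_mem hc hz.le; linarith),
        smul_smul, smul_smul]
      have : M⁻¹ * (M / L) * L = 1 := by field_simp
      rw [this, one_smul]
      abel
    refine glue_lip (g := rad a) (by positivity) ?_ ?_ x y
    · intro x y
      refine (rad_lip h.ha ha1 x y).trans ?_
      nlinarith [norm_nonneg (x - y)]
    · intro x
      have f1 : ∀ y : V, ‖y - (1 / 2 : ℝ) • e‖ ≤ 1 / 4 → rec L M a e (k + 1) y
          = (1 / 2 : ℝ) • e + M⁻¹ • rec L M a e k (L • (y - (1 / 2 : ℝ) • e)) := fun y hy => if_pos hy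
      have f2 : ∀ y : V, ‖y - -((1 / 2 : ℝ) • e)‖ ≤ 1 / 4 → rec L M a e (k + 1) y
          = -((1 / 2 : ℝ) • e) + M⁻¹ • rec L M a e k (L • (y - -((1 / 2 : ℝ) • e))) := by
        intro y hy
        rw [sub_neg_eq_add] at hy ⊢
        show (if _ then _ else _) = _
        rw [if_neg (not_le.2 (balls_disjoint he hy)), if_pos hy]
      by_cases h1 : ‖x - (1 / 2 : ℝ) • e‖ ≤ 1 / 4
      · right
        refine ⟨_, _, h1, ?_, ?_⟩
        · intro y z hy hz
          rw [f1 y hy, f1 z hz]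
          exact hball _ _ _
        · intro z hz
          rw [f1 z hz.le]
          exact hsph _ _ hz (norm_half he)
      by_cases h2 : ‖x - -((1 / 2 : ℝ) • e)‖ ≤ 1 / 4
      · right
        refine ⟨_, _, h2, ?_, ?_⟩
        · intro y z hy hz
          rw [f2 y hy, f2 z hz]
          exact hball _ _ _
        · intro z hz
          rw [f2 z hz.le]
          exact hsph _ _ hz (by rw [norm_neg]; exact norm_half he)
      · left
        rw [sub_neg_eq_add] at h2
        show (if _ then _ else _) = _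
        rw [if_neg h1, if_neg h2]


/-- position of the level `k` centre -/
noncomputable def ctr (b : ℝ) (e : V) (k : ℕ) : V :=
  (1 / 2 * ∑ j ∈ Finset.range k, b ^ (j + 1)) • e

theorem ctr_zero (b : ℝ) (e : V) : ctr b e 0 = 0 := by simp [ctr]

theorem ctr_succ (b : ℝ) (e : V) (k : ℕ) :
    ctr b e (k + 1) = ctr b e k + b ^ (k + 1) • ((1 / 2 : ℝ) • e) := by
  unfold ctr
  rw [Finset.sum_range_succ, mul_add, add_smul, smul_smul, mul_comm (b ^ (k + 1))]

theorem norm_ctr {b : ℝ} (hb : 4 < b) (he : ‖e‖ = 1) (k : ℕ) : ‖ctr b e k‖ ≤ b ^ (k + 1) / 6 := by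
  have hb0 : 0 < b := by linarith
  induction k with
  | zero => rw [ctr_zero, norm_zero]; positivity
  | succ k ih =>
    rw [ctr_succ]
    have h1 : ‖b ^ (k + 1) • ((1 / 2 : ℝ) • e)‖ = b ^ (k + 1) * (1 / 2) := by
      rw [norm_smul, norm_half he, Real.norm_of_nonneg (by positivity)]
    have h2 := norm_add_le (ctr b e k) (b ^ (k + 1) • ((1 / 2 : ℝ) • e))
    rw [h1] at h2
    have h3 : 0 < b ^ (k + 1) := by positivity
    have h4 : b ^ (k + 1 + 1) = b ^ (k + 1) * b := pow_succ _ _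
    rw [h4]
    nlinarith

/-- the point lies in the big ball of level `k` -/
def Inn (b : ℝ) (e : V) (k : ℕ) (x : V) : Prop := ‖x - ctr b e k‖ ≤ b ^ (k + 1) / 4

theorem Inn.succ {b : ℝ} (hb : 4 < b) (he : ‖e‖ = 1) {k : ℕ} {x : V} (h : Inn b e k x) :
    Inn b e (k + 1) x := by
  unfold Inn at *
  rw [ctr_succ, ← sub_sub]
  have hb0 : 0 < b := by linarith
  have h1 : ‖b ^ (k + 1) • ((1 / 2 : ℝ) • e)‖ = b ^ (k + 1) * (1 / 2) := by
    rw [norm_smul, norm_half he, Real.norm_of_nonneg (by positivity)]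
  have h2 := norm_sub_le (x - ctr b e k) (b ^ (k + 1) • ((1 / 2 : ℝ) • e))
  rw [h1] at h2
  have h3 : 0 < b ^ (k + 1) := by positivity
  have h4 : b ^ (k + 1 + 1) = b ^ (k + 1) * b := pow_succ _ _
  rw [h4]
  nlinarith

theorem Inn.mono {b : ℝ} (hb : 4 < b) (he : ‖e‖ = 1) {k m : ℕ} (hkm : k ≤ m) {x : V}
    (h : Inn b e k x) : Inn b e m x := by
  induction m, hkm using Nat.le_induction with
  | base => exact h
  | succ m _ ih => exact ih.succ hb he

theorem exists_Inn {b : ℝ} (hb : 4 < b) (he : ‖e‖ = 1) (R : ℝ) :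
    ∃ k, ∀ x : V, ‖x‖ ≤ R → Inn b e k x := by
  obtain ⟨k, hk⟩ := pow_unbounded_of_one_lt (12 * R) (show (1 : ℝ) < b by linarith)
  refine ⟨k, fun x hx => ?_⟩
  unfold Inn
  have h1 := norm_ctr (e := e) hb he k
  have h2 := norm_sub_le x (ctr b e k)
  have h3 : b ^ (k + 1) = b ^ k * b := pow_succ _ _
  have h4 : 0 < b ^ k := by positivity
  have h5 : b ^ k ≤ b ^ (k + 1) := by rw [h3]; nlinarith
  linarith

/-- the level `k` approximation of the final map -/
noncomputable def fk (L M a : ℝ) (e : V) (k : ℕ) (x : V) : V :=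
  M ^ k • rec L M a e k ((L ^ k)⁻¹ • (x - ctr L e k)) + ctr M e k

theorem fk_succ (h : Par L M a) (he : ‖e‖ = 1) {k : ℕ} {x : V} (hx : Inn L e k x) :
    fk L M a e (k + 1) x = fk L M a e k x := by
  have hM := h.hM
  have hL := h.hL
  have hM0 : 0 < M := by linarith
  have hL0 : 0 < L := by linarith
  have hLk : 0 < L ^ (k + 1) := by positivity
  unfold fk
  have e1 : (L ^ (k + 1))⁻¹ • (x - ctr L e (k + 1)) + (1 / 2 : ℝ) • e
      = (L ^ (k + 1))⁻¹ • (x - ctr L e k) := by
    rw [ctr_succ, ← sub_sub, smul_sub, smul_smul, inv_mul_cancel₀ hLk.ne', one_smul]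
    abel
  have h2 : ‖(L ^ (k + 1))⁻¹ • (x - ctr L e (k + 1)) + (1 / 2 : ℝ) • e‖ ≤ 1 / 4 := by
    rw [e1, norm_smul, Real.norm_of_nonneg (by positivity)]
    have : ‖x - ctr L e k‖ ≤ L ^ (k + 1) / 4 := hx
    calc (L ^ (k + 1))⁻¹ * ‖x - ctr L e k‖ ≤ (L ^ (k + 1))⁻¹ * (L ^ (k + 1) / 4) := by gcongr
      _ = 1 / 4 := by field_simp
  have e2 : rec L M a e (k + 1) ((L ^ (k + 1))⁻¹ • (x - ctr L e (k + 1)))
      = -((1 / 2 : ℝ) • e) + M⁻¹ • rec L M a e k (L • ((L ^ (k + 1))⁻¹ • (x - ctr L e (k + 1))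
        + (1 / 2 : ℝ) • e)) := by
    show (if _ then _ else _) = _
    rw [if_neg (not_le.2 (balls_disjoint he h2)), if_pos h2]
  have e3 : L • ((L ^ (k + 1))⁻¹ • (x - ctr L e k)) = (L ^ k)⁻¹ • (x - ctr L e k) := by
    rw [smul_smul]
    congr 1
    rw [pow_succ]
    field_simp
  rw [e2, e1, e3, smul_add, smul_smul, ctr_succ M]
  have e4 : M ^ (k + 1) * M⁻¹ = M ^ k := by
    rw [pow_succ]
    field_simp
  rw [e4, smul_neg]
  abel

theorem fk_stable (h : Par L M a) (he : ‖e‖ = 1) {k m : ℕ} (hkm : k ≤ m) {x : V}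
    (hx : Inn L e k x) : fk L M a e m x = fk L M a e k x := by
  induction m, hkm using Nat.le_induction with
  | base => rfl
  | succ m hm ih => rw [fk_succ h he (hx.mono h.hL he hm), ih]

open Classical in
/-- the limit map -/
noncomputable def flim (L M a : ℝ) (e : V) (x : V) : V :=
  if h : ∃ k, Inn L e k x then fk L M a e (Nat.find h) x else x

theorem flim_eq (h : Par L M a) (he : ‖e‖ = 1) {k : ℕ} {x : V} (hx : Inn L e k x) :
    flim L M a e x = fk L M a e k x := by
  classical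
  have hex : ∃ k, Inn L e k x := ⟨k, hx⟩
  unfold flim
  rw [dif_pos hex]
  exact (fk_stable h he (Nat.find_min' hex hx) (Nat.find_spec hex)).symm

theorem norm_arg {b : ℝ} (hb : 4 < b) {k : ℕ} {x : V} (hx : Inn b e k x) :
    ‖(b ^ k)⁻¹ • (x - ctr b e k)‖ ≤ b / 4 := by
  have hb0 : 0 < b := by linarith
  have hbk : 0 < b ^ k := by positivity
  rw [norm_smul, Real.norm_of_nonneg (by positivity)]
  have : ‖x - ctr b e k‖ ≤ b ^ (k + 1) / 4 := hx
  calc (b ^ k)⁻¹ * ‖x - ctr b e k‖ ≤ (b ^ k)⁻¹ * (b ^ (k + 1) / 4) := by gcongr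
    _ = b / 4 := by rw [pow_succ]; field_simp

theorem Inn_flim (h : Par L M a) (he : ‖e‖ = 1) {k : ℕ} {x : V} (hx : Inn L e k x) :
    Inn M e k (flim L M a e x) := by
  have hM := h.hM
  have hM0 : 0 < M := by linarith
  rw [flim_eq h he hx]
  unfold Inn fk
  rw [add_sub_cancel_right, norm_smul, Real.norm_of_nonneg (by positivity)]
  have := rec_ball h he k (norm_arg h.hL hx)
  calc M ^ k * ‖rec L M a e k ((L ^ k)⁻¹ • (x - ctr L e k))‖ ≤ M ^ k * (M / 4) := by gcongr
    _ = M ^ (k + 1) / 4 := by rw [pow_succ]; ring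

theorem flim_left_inv (h : Par L M a) (he : ‖e‖ = 1) (x : V) :
    flim M L a⁻¹ e (flim L M a e x) = x := by
  have hM := h.hM
  have hL := h.hL
  have hM0 : 0 < M := by linarith
  have hL0 : 0 < L := by linarith
  obtain ⟨k, hk⟩ := exists_Inn h.hL he ‖x‖
  have hx := hk x le_rfl
  have hMk : (M ^ k)⁻¹ * M ^ k = 1 := inv_mul_cancel₀ (by positivity)
  have hLk : L ^ k * (L ^ k)⁻¹ = 1 := mul_inv_cancel₀ (by positivity)
  rw [flim_eq h.symm he (Inn_flim h he hx), flim_eq h he hx]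
  unfold fk
  rw [add_sub_cancel_right, smul_smul, hMk, one_smul, rec_left_inv h he, smul_smul, hLk, one_smul,
    sub_add_cancel]

theorem flim_right_inv (h : Par L M a) (he : ‖e‖ = 1) (x : V) :
    flim L M a e (flim M L a⁻¹ e x) = x := by
  have := flim_left_inv h.symm he x
  rwa [inv_inv] at this

theorem flim_lip (h : Par L M a) (ha1 : a ≤ 1) (hLM : M ≤ L) (he : ‖e‖ = 1) (x y : V) :
    ‖flim L M a e x - flim L M a e y‖ ≤ 2 * ‖x - y‖ := by
  have hM := h.hM
  have hL := h.hL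
  have hM0 : 0 < M := by linarith
  have hL0 : 0 < L := by linarith
  obtain ⟨k, hk⟩ := exists_Inn h.hL he (max ‖x‖ ‖y‖)
  rw [flim_eq h he (hk x (le_max_left _ _)), flim_eq h he (hk y (le_max_right _ _))]
  unfold fk
  rw [add_sub_add_right_eq_sub, ← smul_sub, norm_smul, Real.norm_of_nonneg (by positivity)]
  have h1 := rec_lip h ha1 hLM he k ((L ^ k)⁻¹ • (x - ctr L e k)) ((L ^ k)⁻¹ • (y - ctr L e k))
  rw [← smul_sub, norm_smul, Real.norm_of_nonneg (by positivity), sub_sub_sub_cancel_right] at h1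
  calc _ ≤ M ^ k * (2 * (L / M) ^ k * ((L ^ k)⁻¹ * ‖x - y‖)) := by gcongr
    _ = 2 * ‖x - y‖ := by
      rw [div_pow]
      field_simp

theorem flim_homeo [FiniteDimensional ℝ V] (h : Par L M a) (ha1 : a ≤ 1) (hLM : M ≤ L)
    (he : ‖e‖ = 1) : IsHomeomorph (flim L M a e) := by
  have hlip : LipschitzWith 2 (flim L M a e) := by
    apply LipschitzWith.of_dist_le_mul
    intro x y
    rw [dist_eq_norm, dist_eq_norm]
    exact flim_lip h ha1 hLM he x y
  have hcont := hlip.continuous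
  have hbij : Function.Bijective (flim L M a e) :=
    Function.bijective_iff_has_inverse.2 ⟨flim M L a⁻¹ e, flim_left_inv h he, flim_right_inv h he⟩
  have hprop : IsProperMap (flim L M a e) := by
    haveI : ProperSpace V := FiniteDimensional.proper_real V
    rw [isProperMap_iff_isCompact_preimage]
    refine ⟨hcont, fun K hK => ?_⟩
    apply Metric.isCompact_of_isClosed_isBounded (hK.isClosed.preimage hcont)
    obtain ⟨R, hR⟩ := hK.isBounded.exists_norm_le
    obtain ⟨k, hk⟩ := exists_Inn h.hM he R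
    refine (Metric.isBounded_closedBall (x := ctr L e k) (r := L ^ (k + 1) / 4)).subset ?_
    intro x hx
    rw [Metric.mem_closedBall, dist_eq_norm]
    have h1 := Inn_flim h.symm he (hk _ (hR _ hx))
    rw [flim_left_inv h he] at h1
    exact h1
  rw [isHomeomorph_iff_continuous_isClosedMap_bijective]
  exact ⟨hcont, hprop.isClosedMap, hbij⟩


open scoped RealInnerProductSpace

theorem hasFDerivAt_norm' {y : V} (hy : y ≠ 0) :
    HasFDerivAt (fun z : V => ‖z‖) (‖y‖⁻¹ • innerSL ℝ y) y := by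
  have h1 : HasFDerivAt (fun z : V => ‖z‖ ^ 2) (2 • (innerSL ℝ y)) y :=
    (hasStrictFDerivAt_norm_sq y).hasFDerivAt
  have hn : 0 < ‖y‖ := norm_pos_iff.2 hy
  have h2 := h1.sqrt (by positivity)
  have e1 : (fun z : V => √(‖z‖ ^ 2)) = fun z : V => ‖z‖ := by
    ext z; exact Real.sqrt_sq (norm_nonneg z)
  rw [e1] at h2
  have e2 : (1 / (2 * √(‖y‖ ^ 2))) • (2 • (innerSL ℝ y)) = ‖y‖⁻¹ • innerSL ℝ y := by
    rw [Real.sqrt_sq hn.le, ← Nat.cast_smul_eq_nsmul ℝ, smul_smul]
    congr 1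
    push_cast
    field_simp
  rw [e2] at h2
  exact h2

/-- the differential of the radial map at a point outside the unit ball -/
noncomputable def radB (a : ℝ) (y : V) : V →L[ℝ] V :=
  a • ContinuousLinearMap.id ℝ V + (1 - a) • (‖y‖⁻¹ • ContinuousLinearMap.id ℝ V
    + (-(‖y‖⁻¹ ^ 3) • innerSL ℝ y).smulRight y)

theorem radB_apply (a : ℝ) (y v : V) :
    radB a y v = a • v + (1 - a) • (‖y‖⁻¹ • v + (-(‖y‖⁻¹ ^ 3) * ⟪y, v⟫) • y) := by
  simp [radB]

theorem rad_hasFDerivAt (a : ℝ) {y : V} (hy : 1 < ‖y‖) :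
    HasFDerivAt (rad a) (radB a y) y := by
  have hy0 : y ≠ 0 := by
    intro h; rw [h, norm_zero] at hy; linarith
  have hn : 0 < ‖y‖ := by linarith
  have h1 := hasFDerivAt_norm' hy0
  have h2 : HasFDerivAt (fun z : V => ‖z‖⁻¹) (-(‖y‖ ^ 2)⁻¹ • (‖y‖⁻¹ • innerSL ℝ y)) y :=
    (hasDerivAt_inv hn.ne').comp_hasFDerivAt y h1
  have h3 := h2.smul (hasFDerivAt_id y)
  have h4 : HasFDerivAt (fun z : V => a • z + (1 - a) • (‖z‖⁻¹ • z))
      (a • ContinuousLinearMap.id ℝ V + (1 - a) • (‖y‖⁻¹ • ContinuousLinearMap.id ℝ V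
        + (-(‖y‖ ^ 2)⁻¹ • (‖y‖⁻¹ • innerSL ℝ y)).smulRight y)) y :=
    ((hasFDerivAt_id y).const_smul a).add (h3.const_smul (1 - a))
  have e1 : -(‖y‖ ^ 2)⁻¹ • (‖y‖⁻¹ • innerSL ℝ y) = -(‖y‖⁻¹ ^ 3) • innerSL ℝ y := by
    rw [smul_smul]
    congr 1
    field_simp
  rw [e1] at h4
  refine h4.congr_of_eventuallyEq ?_
  have hopen : ∀ᶠ z in 𝓝 y, 1 < ‖z‖ := continuous_norm.continuousAt.eventually_const_lt hy
  filter_upwards [hopen] with z hz
  rw [rad_of_ge hz.le, smul_smul, div_eq_mul_inv]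

/-- good differentiability: the differential is a positive multiple of a symmetric map with
spectrum in `[a,1]` -/
def Good (g : V → V) (a : ℝ) (y : V) : Prop :=
  ∃ (c : ℝ) (B : V →L[ℝ] V), 0 < c ∧ (B : V →ₗ[ℝ] V).IsSymmetric ∧
    (∀ v, a * ‖v‖ ^ 2 ≤ ⟪B v, v⟫) ∧ ‖B‖ ≤ 1 ∧ HasFDerivAt g (c • B) y

theorem rad_good {a : ℝ} (ha : 0 < a) (ha1 : a ≤ 1) {y : V} (hy : ‖y‖ ≠ 1) :
    Good (rad a) a y := by
  rcases lt_or_gt_of_ne hy with h | h
  · refine ⟨1, ContinuousLinearMap.id ℝ V, one_pos, ?_, ?_, ContinuousLinearMap.norm_id_le, ?_⟩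
    · intro x z; rfl
    · intro v
      rw [ContinuousLinearMap.id_apply, real_inner_self_eq_norm_sq]
      nlinarith [sq_nonneg ‖v‖]
    · rw [one_smul]
      refine (hasFDerivAt_id y).congr_of_eventuallyEq ?_
      have hopen : ∀ᶠ z in 𝓝 y, ‖z‖ < 1 := continuous_norm.continuousAt.eventually_lt_const h
      filter_upwards [hopen] with z hz
      rw [rad_of_le hz.le]; rfl
  · have hn : 0 < ‖y‖ := by linarith
    set t := ‖y‖⁻¹ with ht
    have ht0 : 0 < t := inv_pos.2 hn
    have ht1 : t ≤ 1 := inv_le_one_of_one_le₀ h.le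
    have hty : t * ‖y‖ = 1 := inv_mul_cancel₀ hn.ne'
    refine ⟨1, radB a y, one_pos, ?_, ?_, ?_, ?_⟩
    · intro x z
      simp only [ContinuousLinearMap.coe_coe, radB_apply, inner_add_left, inner_add_right,
        inner_smul_left, inner_smul_right, RCLike.conj_to_real]
      rw [real_inner_comm z y, real_inner_comm y x]
      ring
    · intro v
      rw [radB_apply]
      simp only [inner_add_left, inner_smul_left, RCLike.conj_to_real]
      rw [real_inner_self_eq_norm_sq, ← ht]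
      have hcs : ⟪y, v⟫ * ⟪y, v⟫ ≤ ‖y‖ ^ 2 * ‖v‖ ^ 2 := by
        have := real_inner_mul_inner_self_le y v
        rw [real_inner_self_eq_norm_sq, real_inner_self_eq_norm_sq] at this
        exact this
      have h2 : t ^ 3 * (⟪y, v⟫ * ⟪y, v⟫) ≤ t * ‖v‖ ^ 2 := by
        calc t ^ 3 * (⟪y, v⟫ * ⟪y, v⟫) ≤ t ^ 3 * (‖y‖ ^ 2 * ‖v‖ ^ 2) := by gcongr
          _ = t * (t * ‖y‖) ^ 2 * ‖v‖ ^ 2 := by ring
          _ = t * ‖v‖ ^ 2 := by rw [hty]; ring
      have h3 : 0 ≤ 1 - a := by linarith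
      nlinarith [mul_nonneg h3 (sub_nonneg.2 h2)]
    · apply ContinuousLinearMap.opNorm_le_bound _ zero_le_one
      intro v
      rw [radB_apply, one_mul, ← ht]
      -- the projection orthogonal to `y`
      have hproj : ‖v - (t ^ 2 * ⟪y, v⟫) • y‖ ≤ ‖v‖ := by
        have h4 : ‖v - (t ^ 2 * ⟪y, v⟫) • y‖ ^ 2 ≤ ‖v‖ ^ 2 := by
          rw [norm_sub_sq_real, inner_smul_right, norm_smul, mul_pow, Real.norm_eq_abs, sq_abs,
            real_inner_comm v y]
          have : (t ^ 2 * ⟪v, y⟫) ^ 2 * ‖y‖ ^ 2 = t ^ 2 * ⟪v, y⟫ ^ 2 * (t * ‖y‖) ^ 2 := by ring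
          rw [this, hty]
          nlinarith [mul_nonneg (sq_nonneg t) (sq_nonneg ⟪v, y⟫)]
        exact le_of_sq_le_sq h4 (norm_nonneg _) |>.trans le_rfl
      have e1 : t • v + (-(t ^ 3) * ⟪y, v⟫) • y = t • (v - (t ^ 2 * ⟪y, v⟫) • y) := by
        rw [smul_sub, smul_smul, sub_eq_add_neg, ← neg_smul]
        congr 2
        ring
      rw [e1]
      have h3 : 0 ≤ 1 - a := by linarith
      calc ‖a • v + (1 - a) • t • (v - (t ^ 2 * ⟪y, v⟫) • y)‖
          ≤ ‖a • v‖ + ‖(1 - a) • t • (v - (t ^ 2 * ⟪y, v⟫) • y)‖ := norm_add_le _ _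
        _ = a * ‖v‖ + (1 - a) * (t * ‖v - (t ^ 2 * ⟪y, v⟫) • y‖) := by
          rw [norm_smul, norm_smul, norm_smul, Real.norm_of_nonneg ha.le,
            Real.norm_of_nonneg h3, Real.norm_of_nonneg ht0.le]
        _ ≤ a * ‖v‖ + (1 - a) * (1 * ‖v‖) := by gcongr
        _ = ‖v‖ := by ring
    · rw [one_smul]
      exact rad_hasFDerivAt a h

theorem Good.comp_affine {g : V → V} {a : ℝ} {c : V} {s m : ℝ} (hs : 0 < s) (hm : 0 < m)
    {d y : V} (h : Good g a (s • (y - c))) :
    Good (fun z => d + m • g (s • (z - c))) a y := by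
  obtain ⟨q, B, hq, hsym, hlow, hup, hder⟩ := h
  refine ⟨m * q * s, B, by positivity, hsym, hlow, hup, ?_⟩
  have h1 : HasFDerivAt (fun z : V => s • (z - c)) (s • ContinuousLinearMap.id ℝ V) y :=
    ((hasFDerivAt_id y).sub_const c).const_smul s
  have h2 := (hder.comp y h1).const_smul m
  have h3 := h2.const_add d
  have e : m • ((q • B).comp (s • ContinuousLinearMap.id ℝ V)) = (m * q * s) • B := by
    ext v
    simp only [ContinuousLinearMap.smul_apply, ContinuousLinearMap.comp_apply,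
      ContinuousLinearMap.id_apply, map_smul, smul_smul]
    congr 1
    ring
  rw [e] at h3
  exact h3

theorem Good.congr {g g' : V → V} {a : ℝ} {y : V} (h : Good g a y) (he : g' =ᶠ[𝓝 y] g) :
    Good g' a y := by
  obtain ⟨q, B, hq, hsym, hlow, hup, hder⟩ := h
  exact ⟨q, B, hq, hsym, hlow, hup, hder.congr_of_eventuallyEq he⟩

section measure

variable [FiniteDimensional ℝ V] [MeasurableSpace V] [BorelSpace V] (μ : Measure V)
  [μ.IsAddHaarMeasure]

theorem ae_affine {P : V → Prop} (hP : ∀ᵐ y ∂μ, P y) {s : ℝ} (hs : s ≠ 0) (c : V) :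
    ∀ᵐ y ∂μ, P (s • (y - c)) := by
  have h1 : Measure.QuasiMeasurePreserving (fun y : V => s • y) μ μ :=
    Measure.quasiMeasurePreserving_smul μ hs
  have h2 : Measure.QuasiMeasurePreserving (fun y : V => y - c) μ μ :=
    (measurePreserving_sub_right μ c).quasiMeasurePreserving
  exact (h1.comp h2).ae hP

theorem ae_norm_ne (c : V) [Nontrivial V] (r : ℝ) : ∀ᵐ y ∂μ, ‖y - c‖ ≠ r := by
  have h := Measure.addHaar_sphere μ c r
  rw [ae_iff]
  refine measure_mono_null ?_ h
  intro y hy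
  rw [mem_sphere_iff_norm]
  exact not_not.1 hy

theorem ae_good_rec (h : Par L M a) (ha1 : a ≤ 1) (he : ‖e‖ = 1) (k : ℕ) :
    ∀ᵐ y ∂μ, Good (rec L M a e k) a y := by
  haveI : Nontrivial V := ⟨⟨e, 0, by intro h0; rw [h0, norm_zero] at he; linarith⟩⟩
  have hM := h.hM
  have hL := h.hL
  have hM0 : 0 < M := by linarith
  have hL0 : 0 < L := by linarith
  have hrad : ∀ᵐ y ∂μ, Good (rad a) a y := by
    filter_upwards [ae_norm_ne μ (0 : V) 1] with y hy
    rw [sub_zero] at hy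
    exact rad_good h.ha ha1 hy
  induction k with
  | zero => exact hrad
  | succ k ih =>
    filter_upwards [hrad, ae_norm_ne μ ((1 / 2 : ℝ) • e) (1 / 4),
      ae_norm_ne μ (-((1 / 2 : ℝ) • e)) (1 / 4), ae_affine μ ih hL0.ne' ((1 / 2 : ℝ) • e),
      ae_affine μ ih hL0.ne' (-((1 / 2 : ℝ) • e))] with y hy0 hy1 hy2 hy3 hy4
    have hc1 : Continuous fun z : V => ‖z - (1 / 2 : ℝ) • e‖ := by fun_prop
    have hc2 : Continuous fun z : V => ‖z - -((1 / 2 : ℝ) • e)‖ := by fun_prop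
    rcases lt_or_gt_of_ne hy1 with h1 | h1
    · refine (hy3.comp_affine (m := M⁻¹) (d := (1 / 2 : ℝ) • e) hL0 (by positivity)).congr ?_
      filter_upwards [hc1.continuousAt.eventually_lt_const h1] with z hz
      exact if_pos hz.le
    rcases lt_or_gt_of_ne hy2 with h2 | h2
    · refine (hy4.comp_affine (m := M⁻¹) (d := -((1 / 2 : ℝ) • e)) hL0 (by positivity)).congr ?_
      filter_upwards [hc2.continuousAt.eventually_lt_const h2] with z hz
      rw [sub_neg_eq_add] at hz ⊢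
      show (if _ then _ else _) = _
      rw [if_neg (not_le.2 (balls_disjoint he hz.le)), if_pos hz.le]
    · refine hy0.congr ?_
      filter_upwards [hc1.continuousAt.eventually_const_lt h1,
        hc2.continuousAt.eventually_const_lt h2] with z hz1 hz2
      rw [sub_neg_eq_add] at hz2
      show (if _ then _ else _) = _
      rw [if_neg (not_le.2 hz1), if_neg (not_le.2 hz2)]

theorem ae_good_flim (h : Par L M a) (ha1 : a ≤ 1) (he : ‖e‖ = 1) :
    ∀ᵐ y ∂μ, Good (flim L M a e) a y := by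
  have hM := h.hM
  have hL := h.hL
  have hM0 : 0 < M := by linarith
  have hL0 : 0 < L := by linarith
  have hall : ∀ᵐ y ∂μ, ∀ k, Good (rec L M a e k) a ((L ^ k)⁻¹ • (y - ctr L e k)) := by
    rw [ae_all_iff]
    intro k
    exact ae_affine μ (ae_good_rec μ h ha1 he k) (by positivity) _
  filter_upwards [hall] with y hy
  obtain ⟨k, hk⟩ := exists_Inn h.hL he (‖y‖ + 1)
  have h1 := (hy k).comp_affine (m := M ^ k) (d := ctr M e k) (s := (L ^ k)⁻¹) (by positivity)
    (by positivity)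
  refine h1.congr ?_
  have hopen : ∀ᶠ z in 𝓝 y, ‖z‖ < ‖y‖ + 1 :=
    continuous_norm.continuousAt.eventually_lt_const (by linarith)
  filter_upwards [hopen] with z hz
  rw [flim_eq h he (hk z hz.le)]
  unfold fk
  rw [add_comm]

theorem Good.qc {g : V → V} {a : ℝ} (ha : 0 < a) {y : V} (h : Good g a y) :
    DifferentiableAt ℝ g y ∧
      ‖fderiv ℝ g y‖ ^ (Module.finrank ℝ V) ≤
        (a ^ (Module.finrank ℝ V))⁻¹ * (fderiv ℝ g y).det := by
  obtain ⟨q, B, hq, hsym, hlow, hup, hder⟩ := h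
  refine ⟨hder.differentiableAt, ?_⟩
  rw [hder.fderiv]
  set n := Module.finrank ℝ V with hn
  have h1 : (q • B).det = q ^ n * B.det := by
    show LinearMap.det _ = _
    rw [ContinuousLinearMap.toLinearMap_smul, LinearMap.det_smul]
  have h2 : a ^ n ≤ B.det := by
    have h3 := hsym.det_eq_prod_eigenvalues (𝕜 := ℝ) hn.symm
    show a ^ n ≤ LinearMap.det _
    rw [h3]
    have h4 : ∀ i, a ≤ hsym.eigenvalues hn.symm i := by
      intro i
      have h5 := hsym.apply_eigenvectorBasis hn.symm i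
      have h6 := hlow (hsym.eigenvectorBasis hn.symm i)
      have h7 : ‖hsym.eigenvectorBasis hn.symm i‖ = 1 :=
        (hsym.eigenvectorBasis hn.symm).orthonormal.1 i
      rw [← ContinuousLinearMap.coe_coe, h5, inner_smul_left, real_inner_self_eq_norm_sq, h7] at h6
      simpa using h6
    calc a ^ n = ∏ _i : Fin n, a := by simp
      _ ≤ ∏ i : Fin n, hsym.eigenvalues hn.symm i :=
        Finset.prod_le_prod (fun _ _ => ha.le) (fun i _ => h4 i)
      _ = _ := by simp
  rw [h1, norm_smul, Real.norm_of_nonneg hq.le, mul_pow]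
  have h3 : ‖B‖ ^ n ≤ 1 := pow_le_one₀ (norm_nonneg _) hup
  have han : 0 < a ^ n := by positivity
  rw [← div_eq_inv_mul, le_div_iff₀ han]
  have hqn : 0 < q ^ n := by positivity
  calc q ^ n * ‖B‖ ^ n * a ^ n ≤ q ^ n * 1 * a ^ n := by gcongr
    _ = q ^ n * a ^ n := by ring
    _ ≤ q ^ n * B.det := by gcongr

end measure


end maps

/-! ## Sobolev regularity of Lipschitz maps -/

theorem aesm_fderiv {n : ℕ} (f : En n → En n) :
    AEStronglyMeasurable (fderiv ℝ f) (volume : Measure (En n)) := by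
  borelize (En n →L[ℝ] En n)
  exact (measurable_fderiv ℝ f).aestronglyMeasurable

theorem weak_of_lip {n : ℕ} {f : En n → En n} {C : ℝ≥0} (hf : LipschitzWith C f) :
    IsWeakDeriv f (fderiv ℝ f) := by
  intro φ hφ hc v
  obtain ⟨D, hD⟩ := ContDiff.lipschitzWith_of_hasCompactSupport hc hφ (by simp)
  have hbound : ∀ x, ‖fderiv ℝ f x‖ ≤ C := fun x => norm_fderiv_le_of_lipschitz ℝ hf
  -- integrability of the two integrands
  have hfd : AEStronglyMeasurable (fderiv ℝ f) (volume : Measure (En n)) := aesm_fderiv f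
  have hint1 : Integrable (fun x => (fderiv ℝ φ x v) • f x) := by
    apply Continuous.integrable_of_hasCompactSupport
    · exact ((hφ.continuous_fderiv (by simp)).clm_apply continuous_const).smul hf.continuous
    · exact (hc.fderiv_apply ℝ v).smul_right
  have hint2 : Integrable (fun x => φ x • fderiv ℝ f x v) := by
    have h1 : Integrable φ := hφ.continuous.integrable_of_hasCompactSupport hc
    refine Integrable.mono' (g := fun x => ‖φ x‖ * (C * ‖v‖)) (h1.norm.mul_const _) ?_ ?_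
    · exact h1.aestronglyMeasurable.smul (hfd.apply_continuousLinearMap v)
    · filter_upwards with x
      rw [norm_smul]
      have := (fderiv ℝ f x).le_of_opNorm_le (hbound x) v
      gcongr
  ext i
  have e1 := (EuclideanSpace.proj (𝕜 := ℝ) i : En n →L[ℝ] ℝ).integral_comp_comm hint1
  have e2 := (EuclideanSpace.proj (𝕜 := ℝ) i : En n →L[ℝ] ℝ).integral_comp_comm hint2
  simp only [EuclideanSpace.proj, PiLp.proj_apply] at e1 e2
  rw [PiLp.neg_apply, ← e1, ← e2]
  -- the component function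
  have hfi : LipschitzWith (1 * C) (fun x => f x i) := by
    have h1 : LipschitzWith 1 (fun y : En n => y i) := by
      apply LipschitzWith.of_dist_le_mul
      intro y z
      rw [NNReal.coe_one, one_mul]
      have := PiLp.norm_apply_le (y - z) i
      rw [dist_eq_norm, dist_eq_norm]
      simpa using this
    exact h1.comp hf
  have key := hfi.integral_lineDeriv_mul_eq (μ := volume) hD hc v
  have e3 : ∫ x, (φ x • fderiv ℝ f x v) i = ∫ x, lineDeriv ℝ (fun x => f x i) x v * φ x := by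
    apply integral_congr_ae
    filter_upwards [hf.ae_differentiableAt] with x hx
    have h1 : HasFDerivAt (fun x => f x i)
        ((EuclideanSpace.proj (𝕜 := ℝ) i : En n →L[ℝ] ℝ).comp (fderiv ℝ f x)) x :=
      ((EuclideanSpace.proj (𝕜 := ℝ) i : En n →L[ℝ] ℝ).hasFDerivAt).comp x hx.hasFDerivAt
    rw [(h1.hasLineDerivAt v).lineDeriv]
    simp [mul_comm]
  have e4 : ∫ x, ((fderiv ℝ φ x v) • f x) i
      = - ∫ x, lineDeriv ℝ φ x (-v) * f x i := by
    rw [← integral_neg]
    congr 1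
    ext x
    have h1 : HasFDerivAt φ (fderiv ℝ φ x) x :=
      ((hφ.differentiable (by simp)) x).hasFDerivAt
    rw [(h1.hasLineDerivAt (-v)).lineDeriv]
    simp
  rw [e3, e4, key]

theorem memLp_of_lip {n : ℕ} {f : En n → En n} {C : ℝ≥0} (hf : LipschitzWith C f)
    (K : Set (En n)) (hK : IsCompact K) :
    MemLp f (n : ℝ≥0∞) (volume.restrict K) ∧
      MemLp (fderiv ℝ f) (n : ℝ≥0∞) (volume.restrict K) := by
  haveI : IsFiniteMeasure (volume.restrict K : Measure (En n)) :=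
    ⟨by rw [Measure.restrict_apply_univ]; exact hK.measure_lt_top⟩
  constructor
  · obtain ⟨B, hB⟩ := hK.exists_bound_of_continuousOn hf.continuous.continuousOn
    apply MemLp.of_bound hf.continuous.aestronglyMeasurable B
    rw [ae_restrict_iff' hK.measurableSet]
    filter_upwards with x hx using hB x hx
  · apply MemLp.of_bound (aesm_fderiv f).restrict C
    filter_upwards with x using norm_fderiv_le_of_lipschitz ℝ hf

/-! ## Covering numbers of digit sets -/

theorem coverNumber_le {n : ℕ} {A : Set (En n)} {r : ℝ} (T : Finset (Set (En n)))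
    (h1 : ∀ s ∈ T, Metric.ediam s ≤ ENNReal.ofReal r) (h2 : A ⊆ ⋃ s ∈ T, s) :
    coverNumber A r ≤ T.card :=
  iInf₂_le_of_le T ⟨h1, h2⟩ le_rfl

theorem le_coverNumber {n : ℕ} {A : Set (En n)} {r : ℝ} (P : Finset (En n)) (hP : ↑P ⊆ A)
    (hsep : ∀ x ∈ P, ∀ y ∈ P, x ≠ y → ENNReal.ofReal r < edist x y) :
    (P.card : ℕ∞) ≤ coverNumber A r := by
  refine le_iInf₂ fun T hT => ?_
  obtain ⟨h1, h2⟩ := hT
  have hex : ∀ x ∈ P, ∃ s ∈ T, x ∈ s := by
    intro x hx
    have := h2 (hP hx)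
    simpa using this
  choose! φ hφT hφ using hex
  have : P.card ≤ T.card := by
    apply Finset.card_le_card_of_injOn φ
    · intro x hx; exact hφT x hx
    · intro x hx y hy hxy
      by_contra hne
      have h3 := hsep x hx y hy hne
      have h4 : y ∈ φ x := by rw [hxy]; exact hφ y hy
      have h5 := Metric.edist_le_ediam_of_mem (hφ x hx) h4
      exact absurd (h5.trans (h1 _ (hφT x hx))) (not_le.2 h3)
  exact_mod_cast this

/-- digit sums -/
noncomputable def dsum (b : ℝ) (A : Finset ℕ) : ℝ := ∑ j ∈ A, b ^ (j + 1)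

theorem dsum_nonneg {b : ℝ} (hb : 0 ≤ b) (A : Finset ℕ) : 0 ≤ dsum b A :=
  Finset.sum_nonneg fun _ _ => by positivity

theorem dsum_mono {b : ℝ} (hb : 0 ≤ b) {A B : Finset ℕ} (h : A ⊆ B) : dsum b A ≤ dsum b B :=
  Finset.sum_le_sum_of_subset_of_nonneg h fun _ _ _ => by positivity

theorem dsum_range {b : ℝ} (hb : 1 < b) (k : ℕ) :
    dsum b (Finset.range k) = b * (b ^ k - 1) / (b - 1) := by
  have hb1 : b - 1 ≠ 0 := by linarith
  unfold dsum
  induction k with
  | zero => simp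
  | succ k ih =>
    rw [Finset.sum_range_succ, ih, pow_succ]
    field_simp
    ring

theorem dsum_sub (b : ℝ) (A B : Finset ℕ) :
    dsum b A - dsum b B = dsum b (A \ B) - dsum b (B \ A) := by
  unfold dsum
  exact (Finset.sum_sdiff_sub_sum_sdiff).symm

/-- one-sided separation -/
theorem dsum_sep_aux {b : ℝ} (hb : 4 ≤ b) {A B : Finset ℕ} {i : ℕ} (hi : i ∈ A \ B)
    (hB : B \ A ⊆ Finset.range i) :
    (1 - 1 / (b - 1)) * b ^ (i + 1) ≤ dsum b (A \ B) - dsum b (B \ A) := by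
  have hb0 : 0 ≤ b := by linarith
  have h1 : b ^ (i + 1) ≤ dsum b (A \ B) :=
    Finset.single_le_sum (f := fun j => b ^ (j + 1)) (fun _ _ => by positivity) hi
  have h2 := dsum_mono hb0 hB
  rw [dsum_range (by linarith)] at h2
  have hb1 : 0 < b - 1 := by linarith
  have h3 : b * (b ^ i - 1) / (b - 1) ≤ b ^ (i + 1) / (b - 1) := by
    apply div_le_div_of_nonneg_right _ hb1.le
    rw [pow_succ]
    nlinarith
  have h4 : (1 - 1 / (b - 1)) * b ^ (i + 1) = b ^ (i + 1) - b ^ (i + 1) / (b - 1) := by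
    field_simp
  rw [h4]
  linarith

theorem dsum_sep {b : ℝ} (hb : 4 ≤ b) {A B : Finset ℕ} {m : ℕ}
    (h : A.filter (m ≤ ·) ≠ B.filter (m ≤ ·)) :
    (1 - 1 / (b - 1)) * b ^ (m + 1) ≤ |dsum b A - dsum b B| := by
  -- an index `≥ m` in the symmetric difference
  have hex : ∃ i ∈ symmDiff A B, m ≤ i := by
    by_contra hcon
    push Not at hcon
    apply h
    ext j
    simp only [Finset.mem_filter]
    constructor
    · rintro ⟨h1, h2⟩
      refine ⟨?_, h2⟩
      by_contra h3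
      have := hcon j (by rw [Finset.mem_symmDiff]; exact Or.inl ⟨h1, h3⟩)
      omega
    · rintro ⟨h1, h2⟩
      refine ⟨?_, h2⟩
      by_contra h3
      have := hcon j (by rw [Finset.mem_symmDiff]; exact Or.inr ⟨h1, h3⟩)
      omega
  obtain ⟨i0, hi0, hmi0⟩ := hex
  have hne : (symmDiff A B).Nonempty := ⟨i0, hi0⟩
  set i := (symmDiff A B).max' hne with hi
  have himem : i ∈ symmDiff A B := Finset.max'_mem _ _
  have hile : ∀ j ∈ symmDiff A B, j ≤ i := fun j hj => Finset.le_max' _ _ hj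
  have hmi : m ≤ i := hmi0.trans (hile i0 hi0)
  have hfac : 0 ≤ 1 - 1 / (b - 1) := by
    have : 1 / (b - 1) ≤ 1 := by rw [div_le_one (by linarith)]; linarith
    linarith
  have hpow : b ^ (m + 1) ≤ b ^ (i + 1) := pow_le_pow_right₀ (by linarith) (by omega)
  refine (mul_le_mul_of_nonneg_left hpow hfac).trans ?_
  rw [Finset.mem_symmDiff] at himem
  rcases himem with ⟨h1, h2⟩ | ⟨h1, h2⟩
  · have h3 := dsum_sep_aux hb (A := A) (B := B) (i := i) (by simp [h1, h2]) (by
      intro j hj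
      have h4 : j ∈ symmDiff A B := by
        rw [Finset.mem_symmDiff]; right; simpa using hj
      have h5 := hile j h4
      have h6 : j ≠ i := by
        rintro rfl
        simp at hj
        exact h2 hj.1
      rw [Finset.mem_range]
      omega)
    rw [← dsum_sub] at h3
    exact h3.trans (le_abs_self _)
  · have h3 := dsum_sep_aux hb (A := B) (B := A) (i := i) (by simp [h1, h2]) (by
      intro j hj
      have h4 : j ∈ symmDiff A B := by
        rw [Finset.mem_symmDiff]; left; simpa using hj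
      have h5 := hile j h4
      have h6 : j ≠ i := by
        rintro rfl
        simp at hj
        exact h2 hj.1
      rw [Finset.mem_range]
      omega)
    rw [← dsum_sub] at h3
    rw [abs_sub_comm]
    exact h3.trans (le_abs_self _)

/-- closeness when the high digits agree -/
theorem dsum_close {b : ℝ} (hb : 4 ≤ b) {A B : Finset ℕ} {p : ℕ}
    (h : A.filter (p ≤ ·) = B.filter (p ≤ ·)) :
    |dsum b A - dsum b B| ≤ b * (b ^ p - 1) / (b - 1) := by
  have hb0 : 0 ≤ b := by linarith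
  have hsub : ∀ X Y : Finset ℕ, X.filter (p ≤ ·) = Y.filter (p ≤ ·) → X \ Y ⊆ Finset.range p := by
    intro X Y hXY j hj
    rw [Finset.mem_sdiff] at hj
    rw [Finset.mem_range]
    by_contra hcon
    push Not at hcon
    have h1 : j ∈ X.filter (p ≤ ·) := by simp [hj.1, hcon]
    rw [hXY] at h1
    exact hj.2 (Finset.mem_filter.1 h1).1
  have h1 := dsum_mono hb0 (hsub A B h)
  have h2 := dsum_mono hb0 (hsub B A h.symm)
  rw [dsum_range (by linarith)] at h1 h2
  have h3 := dsum_nonneg hb0 (A \ B)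
  have h4 := dsum_nonneg hb0 (B \ A)
  rw [dsum_sub, abs_le]
  constructor <;> linarith

/-- the discrete Cantor set with base `b` along the unit vector `e` -/
def cset {n : ℕ} (b : ℝ) (e : En n) : Set (En n) := Set.range fun A : Finset ℕ => dsum b A • e

theorem edist_smul {n : ℕ} {e : En n} (he : ‖e‖ = 1) (s t : ℝ) :
    edist (s • e) (t • e) = ENNReal.ofReal |s - t| := by
  rw [edist_dist, dist_eq_norm, ← sub_smul, norm_smul, he, mul_one, Real.norm_eq_abs]

theorem assouad_upper {n : ℕ} {e : En n} (he : ‖e‖ = 1) :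
    assouadDim (cset 16 e) ≤ ((1 / 4 : ℝ≥0) : ℝ≥0∞) := by
  refine iInf₂_le_of_le (1 / 4) ⟨3, by norm_num, ?_⟩ le_rfl
  rintro x ⟨A, rfl⟩ r R hr hrR
  have hR : 0 < R := hr.trans hrR
  -- the two scales
  have hexm : ∃ m : ℕ, R ≤ 14 / 15 * 16 ^ (m + 1) := by
    obtain ⟨m, hm⟩ := pow_unbounded_of_one_lt (15 / 14 * R) (show (1 : ℝ) < 16 by norm_num)
    refine ⟨m, ?_⟩
    rw [pow_succ]
    linarith [hm]
  have hexp : ∃ p : ℕ, r < 16 / 15 * 16 ^ (p + 1) := by
    obtain ⟨p, hp⟩ := pow_unbounded_of_one_lt r (show (1 : ℝ) < 16 by norm_num)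
    refine ⟨p, ?_⟩
    rw [pow_succ]
    linarith [hp]
  classical
  obtain ⟨m, hm1, hm2⟩ : ∃ m : ℕ, R ≤ 14 / 15 * 16 ^ (m + 1) ∧ (m ≠ 0 → 14 / 15 * 16 ^ m < R) := by
    refine ⟨Nat.find hexm, Nat.find_spec hexm, fun h0 => ?_⟩
    have := Nat.find_min hexm (m := Nat.find hexm - 1) (by omega)
    rw [not_le, Nat.sub_add_cancel (by omega)] at this
    exact this
  obtain ⟨p, hp1, hp2⟩ : ∃ p : ℕ, r < 16 / 15 * 16 ^ (p + 1) ∧ (p ≠ 0 → 16 / 15 * 16 ^ p ≤ r) := by
    refine ⟨Nat.find hexp, Nat.find_spec hexp, fun h0 => ?_⟩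
    have := Nat.find_min hexp (m := Nat.find hexp - 1) (by omega)
    rw [not_lt, Nat.sub_add_cancel (by omega)] at this
    exact this
  set p' := min p m with hp'
  -- the covering sets
  let T : Finset (Set (En n)) := ((Finset.Ico p' m).powerset).image fun D =>
    {y | ∃ B : Finset ℕ, y = dsum 16 B • e ∧
      B.filter (p' ≤ ·) = A.filter (m ≤ ·) ∪ D}
  have hcov : coverNumber (Metric.ball (dsum 16 A • e) R ∩ cset 16 e) r ≤ T.card := by
    apply coverNumber_le
    · intro s hs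
      obtain ⟨D, -, rfl⟩ := Finset.mem_image.1 hs
      apply Metric.ediam_le
      rintro _ ⟨B, rfl, hB⟩ _ ⟨B', rfl, hB'⟩
      rw [edist_smul he]
      apply ENNReal.ofReal_le_ofReal
      refine (dsum_close (by norm_num) (hB.trans hB'.symm)).trans ?_
      rcases Nat.eq_zero_or_pos p' with h0 | h0
      · rw [h0]; norm_num; exact hr.le
      · have h1 : p ≠ 0 := by
          intro h; rw [hp', h] at h0; simp at h0
        have h2 := hp2 h1
        have h3 : (16 : ℝ) ^ p' ≤ 16 ^ p := pow_le_pow_right₀ (by norm_num) (min_le_left _ _)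
        linarith
    · rintro y ⟨hy1, B, rfl⟩
      have hfil : A.filter (m ≤ ·) = B.filter (m ≤ ·) := by
        by_contra hne
        have h1 := dsum_sep (b := 16) (by norm_num) hne
        rw [Metric.mem_ball, dist_eq_norm, ← sub_smul, norm_smul, he, mul_one,
          Real.norm_eq_abs, abs_sub_comm] at hy1
        norm_num at h1
        linarith
      simp only [T, mem_iUnion, Finset.mem_image, Finset.mem_powerset, exists_prop]
      refine ⟨_, ⟨B.filter (fun j => p' ≤ j ∧ j < m), ?_, rfl⟩, B, rfl, ?_⟩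
      · intro j hj
        simp only [Finset.mem_filter] at hj
        rw [Finset.mem_Ico]
        exact hj.2
      · rw [hfil]
        ext j
        simp only [Finset.mem_filter, Finset.mem_union]
        constructor
        · rintro ⟨h1, h2⟩
          rcases le_or_gt m j with h3 | h3
          · exact Or.inl ⟨h1, h3⟩
          · exact Or.inr ⟨h1, h2, h3⟩
        · rintro (⟨h1, h2⟩ | ⟨h1, h2, _⟩)
          · exact ⟨h1, (min_le_right p m).trans h2⟩
          · exact ⟨h1, h2⟩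
  have hcard : T.card ≤ 2 ^ (m - p') := by
    refine Finset.card_image_le.trans ?_
    rw [Finset.card_powerset, Nat.card_Ico]
  have hle : coverNumber (Metric.ball (dsum 16 A • e) R ∩ cset 16 e) r ≤ ((2 ^ (m - p') : ℕ) : ℕ∞) :=
    hcov.trans (by exact_mod_cast hcard)
  have hq : (2 : ℝ) ^ (m - p') ≤ 3 * (R / r) ^ (((1 / 4 : ℝ≥0) : ℝ)) := by
    have hRr : 1 ≤ R / r := by rw [le_div_iff₀ hr]; linarith
    have hRr0 : 0 ≤ R / r := by linarith
    have e14 : (((1 / 4 : ℝ≥0) : ℝ)) = 1 / 4 := by norm_num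
    rw [e14]
    have hrp0 : 0 ≤ (R / r) ^ ((1 : ℝ) / 4) := Real.rpow_nonneg hRr0 _
    have hfour : ((R / r) ^ ((1 : ℝ) / 4)) ^ 4 = R / r := by
      rw [← Real.rpow_natCast, ← Real.rpow_mul hRr0]; norm_num
    have key : ((2 : ℝ) ^ (m - p')) ^ 4 ≤ (3 * (R / r) ^ ((1 : ℝ) / 4)) ^ 4 := by
      rw [mul_pow, hfour, ← pow_mul, mul_comm (m - p') 4, pow_mul]
      norm_num
      rcases le_or_gt m p with h1 | h1
      · have : m - p' = 0 := by rw [hp', min_eq_right h1]; omega
        rw [this]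
        norm_num
        linarith
      · have hpe : p' = p := by rw [hp', min_eq_left h1.le]
        rw [hpe]
        have h2 := hm2 (by omega)
        have h3 : (16 : ℝ) ^ m = 16 ^ (m - p) * 16 ^ p := by
          rw [← pow_add]; congr 1; omega
        have h4 : (0 : ℝ) < 16 ^ (m - p) := by positivity
        have h5 : (0 : ℝ) < 16 ^ p := by positivity
        rw [pow_succ] at hp1
        rw [h3] at h2
        rw [mul_div_assoc', le_div_iff₀ hr]
        nlinarith
    exact le_of_pow_le_pow_left₀ (by norm_num) (by positivity) key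
  calc ((coverNumber (Metric.ball (dsum 16 A • e) R ∩ cset 16 e) r : ℕ∞) : ℝ≥0∞)
      ≤ (((2 ^ (m - p') : ℕ) : ℕ∞) : ℝ≥0∞) := by exact_mod_cast hle
    _ = ENNReal.ofReal ((2 : ℝ) ^ (m - p')) := by
      rw [ENat.toENNReal_coe, ENNReal.ofReal_pow (by norm_num)]
      simp
    _ ≤ _ := ENNReal.ofReal_le_ofReal hq

theorem assouad_lower {n : ℕ} {e : En n} (he : ‖e‖ = 1) :
    ((1 / 3 : ℝ≥0) : ℝ≥0∞) ≤ assouadDim (cset 8 e) := by
  refine le_iInf₂ fun α hα => ?_
  obtain ⟨C, hC, hprop⟩ := hα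
  have hmain : ∀ k : ℕ, (2 : ℝ) ^ k ≤ C * (2 * 8 ^ k) ^ (α : ℝ) := by
    intro k
    have h0 : (0 : En n) ∈ cset 8 e := ⟨∅, by simp [dsum]⟩
    have hk8 : (1 : ℝ) ≤ 8 ^ k := one_le_pow₀ (by norm_num)
    have h1 := hprop 0 h0 1 (2 * 8 ^ k) one_pos (by linarith)
    rw [div_one] at h1
    classical
    set P : Finset (En n) := ((Finset.range k).powerset).image fun A => dsum 8 A • e with hP
    have hinj : Set.InjOn (fun A : Finset ℕ => dsum 8 A • e) ↑((Finset.range k).powerset) := by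
      intro A _ B _ hAB
      by_contra hne
      have h2 : A.filter (0 ≤ ·) ≠ B.filter (0 ≤ ·) := by simpa using hne
      have h3 := dsum_sep (b := 8) (by norm_num) h2
      have h4 : dsum 8 A • e - dsum 8 B • e = 0 := sub_eq_zero.2 hAB
      rw [← sub_smul] at h4
      have h5 := congrArg norm h4
      rw [norm_smul, he, mul_one, norm_zero, Real.norm_eq_abs] at h5
      rw [h5] at h3
      norm_num at h3
    have hcardP : P.card = 2 ^ k := by
      rw [hP, Finset.card_image_of_injOn hinj, Finset.card_powerset, Finset.card_range]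
    have hle : (P.card : ℕ∞) ≤ coverNumber (Metric.ball 0 (2 * 8 ^ k) ∩ cset 8 e) 1 := by
      apply le_coverNumber
      · intro y hy
        rw [Finset.mem_coe, hP, Finset.mem_image] at hy
        obtain ⟨A, hA, rfl⟩ := hy
        refine ⟨?_, A, rfl⟩
        rw [mem_ball_zero_iff, norm_smul, he, mul_one,
          Real.norm_of_nonneg (dsum_nonneg (by norm_num) _)]
        have h2 := dsum_mono (b := 8) (by norm_num) (Finset.mem_powerset.1 hA)
        rw [dsum_range (by norm_num)] at h2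
        linarith
      · intro y hy z hz hyz
        rw [hP, Finset.mem_image] at hy hz
        obtain ⟨A, hA, rfl⟩ := hy
        obtain ⟨B, hB, rfl⟩ := hz
        rw [edist_smul he]
        apply (ENNReal.ofReal_lt_ofReal_iff_of_nonneg zero_le_one).2
        have hne : A ≠ B := by rintro rfl; exact hyz rfl
        have h2 : A.filter (0 ≤ ·) ≠ B.filter (0 ≤ ·) := by simpa using hne
        have h3 := dsum_sep (b := 8) (by norm_num) h2
        norm_num at h3
        linarith
    rw [hcardP] at hle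
    have h2 : (((2 ^ k : ℕ) : ℕ∞) : ℝ≥0∞) ≤ ENNReal.ofReal (C * (2 * 8 ^ k) ^ (α : ℝ)) :=
      le_trans (by exact_mod_cast hle) h1
    rw [ENat.toENNReal_coe] at h2
    have h3 := ENNReal.toReal_mono ENNReal.ofReal_ne_top h2
    rw [ENNReal.toReal_ofReal (by positivity)] at h3
    simpa using h3
  -- conclude
  by_contra hcon
  push Not at hcon
  have hα : (α : ℝ) < 1 / 3 := by
    have : α < 1 / 3 := by exact_mod_cast hcon
    exact_mod_cast this
  -- growth
  set q : ℝ := 2 / 8 ^ (α : ℝ) with hq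
  have h8 : (0 : ℝ) < 8 ^ (α : ℝ) := by positivity
  have hq1 : 1 < q := by
    rw [hq, lt_div_iff₀ h8, one_mul]
    calc (8 : ℝ) ^ (α : ℝ) < 8 ^ ((1 : ℝ) / 3) := Real.rpow_lt_rpow_of_exponent_lt (by norm_num) hα
      _ = 2 := by
        rw [show (8 : ℝ) = 2 ^ (3 : ℝ) by norm_num, ← Real.rpow_mul (by norm_num)]
        norm_num
  obtain ⟨k, hk⟩ := pow_unbounded_of_one_lt (C * 2 ^ (α : ℝ)) hq1
  have h1 := hmain k
  have h2 : ((2 : ℝ) * 8 ^ k) ^ (α : ℝ) = 2 ^ (α : ℝ) * (8 ^ (α : ℝ)) ^ k := by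
    rw [Real.mul_rpow (by norm_num) (by positivity), ← Real.rpow_natCast, ← Real.rpow_mul (by norm_num),
      mul_comm (k : ℝ), Real.rpow_mul (by norm_num), Real.rpow_natCast]
  rw [h2] at h1
  rw [hq, div_pow, lt_div_iff₀ (by positivity)] at hk
  linarith

/-! ## The image of the set -/

theorem norm_dsum_sub_ctr {V : Type*} [NormedAddCommGroup V] [InnerProductSpace ℝ V] {e : V}
    {b : ℝ} (hb : 4 < b) (he : ‖e‖ = 1) {k : ℕ} {A : Finset ℕ}
    (hA : A ⊆ Finset.range k) : ‖dsum b A • e - ctr b e k‖ ≤ b ^ (k + 1) / 4 := by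
  have h1 := norm_ctr (e := e) hb he k
  have h2 := dsum_nonneg (b := b) (by linarith) A
  have h3 := dsum_mono (b := b) (by linarith) hA
  have h4 : ctr b e k = (1 / 2 * dsum b (Finset.range k)) • e := rfl
  rw [h4, norm_smul, he, mul_one, Real.norm_of_nonneg (by linarith)] at h1
  rw [h4, ← sub_smul, norm_smul, he, mul_one, Real.norm_eq_abs]
  have h5 : 0 < b ^ (k + 1) := by positivity
  rw [abs_le]
  constructor <;> linarith

theorem rec_dsum {V : Type*} [NormedAddCommGroup V] [InnerProductSpace ℝ V] {e : V}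
    {L M a : ℝ} (h : Par L M a) (he : ‖e‖ = 1) (k : ℕ) (A : Finset ℕ) (hA : A ⊆ Finset.range k) :
    rec L M a e k ((L ^ k)⁻¹ • (dsum L A • e - ctr L e k))
      = (M ^ k)⁻¹ • (dsum M A • e - ctr M e k) := by
  have hM := h.hM
  have hL := h.hL
  have hM0 : 0 < M := by linarith
  have hL0 : 0 < L := by linarith
  induction k generalizing A with
  | zero =>
    have hA0 : A = ∅ := by simpa using hA
    subst hA0
    simp only [dsum, Finset.sum_empty, zero_smul, ctr_zero, sub_zero, smul_zero]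
    exact rad_of_le (by simp)
  | succ k ih =>
    have hLk : 0 < L ^ (k + 1) := by positivity
    have hMk : 0 < M ^ (k + 1) := by positivity
    have eL : ∀ w : V, L • ((L ^ (k + 1))⁻¹ • w) = (L ^ k)⁻¹ • w := by
      intro w
      rw [smul_smul]; congr 1; rw [pow_succ]; field_simp
    have eM : ∀ w : V, M⁻¹ • ((M ^ k)⁻¹ • w) = (M ^ (k + 1))⁻¹ • w := by
      intro w
      rw [smul_smul]; congr 1; rw [pow_succ]; field_simp
    have hsmall : ∀ B : Finset ℕ, B ⊆ Finset.range k →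
        ‖(L ^ (k + 1))⁻¹ • (dsum L B • e - ctr L e k)‖ ≤ 1 / 4 := by
      intro B hB
      rw [norm_smul, Real.norm_of_nonneg (by positivity)]
      have := norm_dsum_sub_ctr (e := e) h.hL he hB
      calc _ ≤ (L ^ (k + 1))⁻¹ * (L ^ (k + 1) / 4) := by gcongr
        _ = 1 / 4 := by field_simp
    by_cases hk : k ∈ A
    · set B := A.erase k with hBdef
      have hB : B ⊆ Finset.range k := by
        intro j hj
        rw [hBdef, Finset.mem_erase] at hj
        have := hA hj.2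
        rw [Finset.mem_range] at this ⊢
        omega
      have hsum : ∀ b : ℝ, dsum b A = dsum b B + b ^ (k + 1) := by
        intro b
        unfold dsum
        rw [hBdef, Finset.sum_erase_add _ _ hk]
      have key : ∀ b : ℝ, 0 < b → (b ^ (k + 1))⁻¹ • (dsum b A • e - ctr b e (k + 1))
          = (1 / 2 : ℝ) • e + (b ^ (k + 1))⁻¹ • (dsum b B • e - ctr b e k) := by
        intro b hb
        have hbk : (b ^ (k + 1))⁻¹ * b ^ (k + 1) = 1 := inv_mul_cancel₀ (by positivity)
        have e1 : dsum b A • e - ctr b e (k + 1)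
            = (dsum b B • e - ctr b e k) + b ^ (k + 1) • ((1 / 2 : ℝ) • e) := by
          rw [hsum, ctr_succ, add_smul]
          have : b ^ (k + 1) • e = b ^ (k + 1) • ((1 / 2 : ℝ) • e) + b ^ (k + 1) • ((1 / 2 : ℝ) • e) := by
            rw [← smul_add, ← add_smul]; norm_num
          rw [this]; abel
        rw [e1, smul_add, smul_smul (b ^ (k + 1))⁻¹ (b ^ (k + 1)), hbk, one_smul, add_comm]
      rw [key L hL0, key M hM0]
      have h1 : ‖(1 / 2 : ℝ) • e + (L ^ (k + 1))⁻¹ • (dsum L B • e - ctr L e k)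
          - (1 / 2 : ℝ) • e‖ ≤ 1 / 4 := by
        rw [add_sub_cancel_left]; exact hsmall B hB
      show (if _ then _ else _) = _
      rw [if_pos h1, add_sub_cancel_left, eL, ih B hB, eM]
    · have hB : A ⊆ Finset.range k := by
        intro j hj
        have h1 := hA hj
        rw [Finset.mem_range] at h1 ⊢
        have : j ≠ k := by rintro rfl; exact hk hj
        omega
      have key : ∀ b : ℝ, 0 < b → (b ^ (k + 1))⁻¹ • (dsum b A • e - ctr b e (k + 1))
          = -((1 / 2 : ℝ) • e) + (b ^ (k + 1))⁻¹ • (dsum b A • e - ctr b e k) := by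
        intro b hb
        have hbk : (b ^ (k + 1))⁻¹ * b ^ (k + 1) = 1 := inv_mul_cancel₀ (by positivity)
        rw [ctr_succ, ← sub_sub, smul_sub, smul_smul (b ^ (k + 1))⁻¹ (b ^ (k + 1)), hbk, one_smul]
        abel
      rw [key L hL0, key M hM0]
      have h1 : ‖-((1 / 2 : ℝ) • e) + (L ^ (k + 1))⁻¹ • (dsum L A • e - ctr L e k)
          + (1 / 2 : ℝ) • e‖ ≤ 1 / 4 := by
        rw [neg_add_cancel_comm]; exact hsmall A hB
      show (if _ then _ else _) = _
      rw [if_neg (not_le.2 (balls_disjoint he h1)), if_pos h1, neg_add_cancel_comm, eL, ih A hB, eM]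

theorem flim_dsum {V : Type*} [NormedAddCommGroup V] [InnerProductSpace ℝ V] {e : V}
    {L M a : ℝ} (h : Par L M a) (he : ‖e‖ = 1) (A : Finset ℕ) :
    flim L M a e (dsum L A • e) = dsum M A • e := by
  have hM := h.hM
  have hM0 : 0 < M := by linarith
  obtain ⟨k1, hk1⟩ := exists_Inn (e := e) h.hL he ‖dsum L A • e‖
  set k := max k1 (A.sup id + 1) with hk
  have hInn : Inn L e k (dsum L A • e) := (hk1 _ le_rfl).mono h.hL he (le_max_left _ _)
  have hA : A ⊆ Finset.range k := by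
    intro j hj
    rw [Finset.mem_range]
    have h1 : j ≤ A.sup id := Finset.le_sup (f := id) hj
    have h2 : A.sup id + 1 ≤ k := le_max_right _ _
    omega
  rw [flim_eq h he hInn]
  unfold fk
  rw [rec_dsum h he k A hA, smul_smul, mul_inv_cancel₀ (by positivity), one_smul, sub_add_cancel]

theorem flim_image {n : ℕ} {e : En n} {L M a : ℝ} (h : Par L M a) (he : ‖e‖ = 1) :
    flim L M a e '' cset L e = cset M e := by
  ext y
  constructor
  · rintro ⟨_, ⟨A, rfl⟩, rfl⟩
    exact ⟨A, (flim_dsum h he A).symm⟩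
  · rintro ⟨A, rfl⟩
    exact ⟨_, ⟨A, rfl⟩, flim_dsum h he A⟩

theorem flim_qc {n : ℕ} (hn : n ≠ 0) {e : En n} {L M a : ℝ} (h : Par L M a) (ha1 : a ≤ 1)
    (hLM : M ≤ L) (he : ‖e‖ = 1) : IsQuasiconformal (flim L M a e) := by
  have hlip : LipschitzWith 2 (flim L M a e) := by
    apply LipschitzWith.of_dist_le_mul
    intro x y
    rw [dist_eq_norm, dist_eq_norm]
    exact flim_lip h ha1 hLM he x y
  have ha := h.ha
  refine ⟨flim_homeo h ha1 hLM he, fderiv ℝ (flim L M a e), memLp_of_lip hlip,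
    weak_of_lip hlip, (a ^ n)⁻¹, ?_, ?_⟩
  · exact (one_le_inv₀ (by positivity)).2 (pow_le_one₀ ha.le ha1)
  · filter_upwards [ae_good_flim (volume : Measure (En n)) h ha1 he] with x hx
    have := (hx.qc ha).2
    rwa [finrank_euclideanSpace_fin] at this

/-- **Main result.** For every `n ≥ 2` there are a Lipschitz quasiconformal map `f : ℝⁿ → ℝⁿ` and a
set `S ⊆ ℝⁿ` with `dim_A f(S) > dim_A S`. -/
theorem main : ∀ n : ℕ, 2 ≤ n → ∃ f : En n → En n,
    IsQuasiconformal f ∧ (∃ L : ℝ≥0, LipschitzWith L f) ∧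
      ∃ S : Set (En n), assouadDim S < assouadDim (f '' S) := by
  intro n hn
  set e : En n := EuclideanSpace.single ⟨0, by omega⟩ 1 with hedef
  have he : ‖e‖ = 1 := by rw [hedef, EuclideanSpace.norm_single]; simp
  have hpar := par_ex
  refine ⟨flim 16 8 (1 / 3) e, flim_qc (by omega) hpar (by norm_num) (by norm_num) he,
    ⟨2, ?_⟩, cset 16 e, ?_⟩
  · apply LipschitzWith.of_dist_le_mul
    intro x y
    rw [dist_eq_norm, dist_eq_norm]
    exact flim_lip hpar (by norm_num) (by norm_num) he x y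
  · rw [flim_image hpar he]
    calc assouadDim (cset 16 e) ≤ ((1 / 4 : ℝ≥0) : ℝ≥0∞) := assouad_upper he
      _ < ((1 / 3 : ℝ≥0) : ℝ≥0∞) := by
        rw [ENNReal.coe_lt_coe]
        rw [← NNReal.coe_lt_coe]
        push_cast
        norm_num
      _ ≤ assouadDim (cset 8 e) := assouad_lower he

end Pool.Agent.H27.QCAssouad
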